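import Pool.Agent.Helper13.JS.St

/-!
Module MP of project JS (MP_924f75_nt): Mertens for products over a set of primes.
-/

set_option autoImplicit false

namespace Pool.Agent.Helper40.JS

open Finset ArithmeticFunction Pool.Agent.Helper13.JS

/-- lower bound for a product over primes -/
lemma prod_ge' {Q : Finset ℕ} (hQ : ∀ s ∈ Q, 2 ≤ s) :
    Real.exp (-(∑ s ∈ Q, 1 / (s : ℝ)) - 1) ≤ ∏ s ∈ Q, (1 - 1 / (s : ℝ)) := by
  have h1 : ∏ s ∈ Q, Real.exp (-(1 / (s : ℝ) + (1 / (s : ℝ)) ^ 2)) ≤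
      ∏ s ∈ Q, (1 - 1 / (s : ℝ)) := by
    refine Finset.prod_le_prod (fun s _ => (Real.exp_pos _).le) fun s hs => ?_
    have h2 : (2 : ℝ) ≤ s := by exact_mod_cast hQ s hs
    refine Pool.Agent.Helper13.JC.one_sub_ge_exp (by positivity) ?_
    rw [div_le_div_iff₀ (by linarith) (by norm_num)]
    linarith
  refine le_trans ?_ h1
  rw [← Real.exp_sum]
  refine Real.exp_le_exp.2 ?_
  rw [Finset.sum_neg_distrib, Finset.sum_add_distrib]
  have h3 := Pool.Agent.Helper13.JC.sum_inv_sq_le (Q := Q) hQ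
  have h4 : ∑ s ∈ Q, (1 / (s : ℝ)) ^ 2 = ∑ s ∈ Q, 1 / (s : ℝ) ^ 2 :=
    Finset.sum_congr rfl fun s _ => by rw [div_pow, one_pow]
  rw [h4]
  linarith

theorem hMP : StMP := by
  obtain ⟨C, hC, hm⟩ := Pool.Agent.Helper13.JC.mert
  have hlog : ∀ N : ℕ, 2 ≤ N → 0 < Real.log N := fun N hN =>
    Real.log_pos (by exact_mod_cast hN)
  have hup : ∀ N : ℕ, 2 ≤ N →
      ∑ s ∈ (Icc 1 N).filter Nat.Prime, 1 / (s : ℝ) ≤ Real.log (Real.log N) + C := fun N hN => by
    have := (abs_le.1 (hm N hN)).2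
    linarith
  have hlo : ∀ N : ℕ, 2 ≤ N →
      Real.log (Real.log N) - C ≤ ∑ s ∈ (Icc 1 N).filter Nat.Prime, 1 / (s : ℝ) := fun N hN => by
    have := (abs_le.1 (hm N hN)).1
    linarith
  have hnn : ∀ s : ℕ, (0 : ℝ) ≤ 1 / (s : ℝ) := fun s => by positivity
  have hone : ∀ s : ℕ, s.Prime → 0 < 1 - 1 / (s : ℝ) ∧ 1 - 1 / (s : ℝ) ≤ 1 := fun s hs => by
    have h2 : (2 : ℝ) ≤ s := by exact_mod_cast hs.two_le
    have h3 : 1 / (s : ℝ) ≤ 1 / 2 := by
      rw [div_le_div_iff₀ (by linarith) (by norm_num)]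
      linarith
    have := hnn s
    constructor <;> linarith
  refine ⟨Real.exp (1 + 2 * C), Real.one_le_exp (by linarith), ?_, ?_, ?_, ?_⟩
  · intro E M N hE hM hMN
    have hN : 2 ≤ N := hM.trans hMN
    set Q := E.filter (fun p => M < p ∧ p ≤ N) with hQ
    have hdj : Disjoint (E.filter (· ≤ M)) Q := by
      rw [Finset.disjoint_left]
      intro p hp hq
      rw [Finset.mem_filter] at hp
      rw [hQ, Finset.mem_filter] at hq
      omega
    have hun : E.filter (· ≤ N) = E.filter (· ≤ M) ∪ Q := by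
      ext p
      rw [hQ, Finset.mem_union, Finset.mem_filter, Finset.mem_filter, Finset.mem_filter]
      constructor
      · rintro ⟨h1, h2⟩
        by_cases h3 : p ≤ M
        · exact Or.inl ⟨h1, h3⟩
        · exact Or.inr ⟨h1, by omega, h2⟩
      · rintro (⟨h1, h2⟩ | ⟨h1, h2, h3⟩)
        · exact ⟨h1, by omega⟩
        · exact ⟨h1, h3⟩
    have hsp : PE E N = PE E M * ∏ p ∈ Q, (1 - 1 / (p : ℝ)) := by
      unfold PE
      rw [hun, Finset.prod_union hdj]
    have hpos : 0 ≤ PE E M := by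
      unfold PE
      refine Finset.prod_nonneg fun p hp => ?_
      rw [Finset.mem_filter] at hp
      exact (hone p (hE p hp.1)).1.le
    have hsum : ∑ s ∈ Q, 1 / (s : ℝ) ≤
        Real.log (Real.log N) - Real.log (Real.log M) + 2 * C := by
      have h1 : ∑ s ∈ Q, 1 / (s : ℝ) + ∑ s ∈ (Icc 1 M).filter Nat.Prime, 1 / (s : ℝ)
          ≤ ∑ s ∈ (Icc 1 N).filter Nat.Prime, 1 / (s : ℝ) := by
        rw [← Finset.sum_union]
        · refine Finset.sum_le_sum_of_subset_of_nonneg ?_ fun s _ _ => hnn s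
          intro p hp
          rw [hQ, Finset.mem_union, Finset.mem_filter, Finset.mem_filter, Finset.mem_Icc] at hp
          rw [Finset.mem_filter, Finset.mem_Icc]
          rcases hp with ⟨h2, h3, h4⟩ | ⟨⟨h2, h3⟩, h4⟩
          · exact ⟨⟨(hE p h2).one_le, h4⟩, hE p h2⟩
          · exact ⟨⟨h2, by omega⟩, h4⟩
        · rw [Finset.disjoint_left]
          intro p hp hq
          rw [hQ, Finset.mem_filter] at hp
          rw [Finset.mem_filter, Finset.mem_Icc] at hq
          omega
      have h2 := hup N hN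
      have h3 := hlo M hM
      linarith
    have hge := prod_ge' (Q := Q) fun s hs => by
      rw [hQ, Finset.mem_filter] at hs
      exact (hE s hs.1).two_le
    rw [hsp]
    refine mul_le_mul_of_nonneg_left (le_trans ?_ hge) hpos
    have h4 : Real.log M / (Real.exp (1 + 2 * C) * Real.log N)
        = Real.exp (Real.log (Real.log M) - Real.log (Real.log N) - (1 + 2 * C)) := by
      rw [Real.exp_sub, Real.exp_sub, Real.exp_log (hlog M hM), Real.exp_log (hlog N hN)]
      field_simp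
    rw [h4]
    exact Real.exp_le_exp.2 (by linarith)
  · intro N hN
    refine (Pool.Agent.Helper13.JC.prod_le fun s hs => ?_).trans ?_
    · rw [Finset.mem_filter, Finset.mem_Icc] at hs
      exact hs.1.1
    · have h4 : Real.exp (1 + 2 * C) / Real.log N
          = Real.exp (1 + 2 * C - Real.log (Real.log N)) := by
        rw [Real.exp_sub, Real.exp_log (hlog N hN)]
      rw [h4]
      refine Real.exp_le_exp.2 ?_
      have := hlo N hN
      linarith
  · intro E N hE hN
    unfold PE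
    refine le_trans ?_ (prod_ge' fun s hs => ?_)
    · have h4 : 1 / (Real.exp (1 + 2 * C) * Real.log N)
          = Real.exp (-(1 + 2 * C) - Real.log (Real.log N)) := by
        rw [Real.exp_sub, Real.exp_log (hlog N hN), Real.exp_neg]
        field_simp
      rw [h4]
      refine Real.exp_le_exp.2 ?_
      have h5 : ∑ s ∈ E.filter (· ≤ N), 1 / (s : ℝ)
          ≤ ∑ s ∈ (Icc 1 N).filter Nat.Prime, 1 / (s : ℝ) := by
        refine Finset.sum_le_sum_of_subset_of_nonneg ?_ fun s _ _ => hnn s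
        intro p hp
        rw [Finset.mem_filter] at hp
        rw [Finset.mem_filter, Finset.mem_Icc]
        exact ⟨⟨(hE p hp.1).one_le, hp.2⟩, hE p hp.1⟩
      have := hup N hN
      linarith
    · rw [Finset.mem_filter] at hs
      exact (hE s hs.1).two_le
  · intro E N hE
    unfold PE
    have hp : ∀ p ∈ E.filter (· ≤ N), 0 < 1 - 1 / (p : ℝ) ∧ 1 - 1 / (p : ℝ) ≤ 1 := by
      intro p hp
      rw [Finset.mem_filter] at hp
      exact hone p (hE p hp.1)
    exact ⟨Finset.prod_pos fun p h => (hp p h).1,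
      Finset.prod_le_one (fun p h => (hp p h).1.le) fun p h => (hp p h).2⟩

end Pool.Agent.Helper40.JS
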